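import Pool.Agent.Y192.OG.StE

/-!
Lifting polynomials over `F0 x Γ` to Laurent polynomials; radicals.
-/

set_option autoImplicit false

namespace Pool.Agent.Y290.OG

open MvPolynomial Pool.Agent.Y192.OG

/-- Laurent polynomials -/
abbrev La (N : ℕ) : Type := AddMonoidAlgebra ℂ (Fin N → ℤ)

/-- supported in `Γ` -/
def SG {N : ℕ} (Γ : Submodule ℤ (Fin N → ℤ)) (g : La N) : Prop := ∀ m ∈ g.coeff.support, m ∈ Γ

section supp

variable {N : ℕ}

lemma supp_mul (x y : La N) (m : Fin N → ℤ) (hm : m ∈ (x * y).coeff.support) :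
    ∃ m1 ∈ x.coeff.support, ∃ m2 ∈ y.coeff.support, m1 + m2 = m := by
  classical
  rw [Finsupp.mem_support_iff, AddMonoidAlgebra.coeff_mul] at hm
  obtain ⟨m1, h1, h1'⟩ := Finset.exists_ne_zero_of_sum_ne_zero hm
  obtain ⟨m2, h2, h2'⟩ := Finset.exists_ne_zero_of_sum_ne_zero h1'
  refine ⟨m1, h1, m2, h2, ?_⟩
  by_contra h
  exact h2' (if_neg h)

lemma supp_add (x y : La N) (m : Fin N → ℤ) (hm : m ∈ (x + y).coeff.support) :
    m ∈ x.coeff.support ∨ m ∈ y.coeff.support := by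
  by_contra h
  push Not at h
  rw [Finsupp.notMem_support_iff, Finsupp.notMem_support_iff] at h
  rw [Finsupp.mem_support_iff, AddMonoidAlgebra.coeff_add, Finsupp.add_apply, h.1, h.2] at hm
  exact hm (add_zero _)

lemma supp_sum {ι : Type} (s : Finset ι) (f : ι → La N) (m : Fin N → ℤ)
    (hm : m ∈ (∑ i ∈ s, f i).coeff.support) : ∃ i ∈ s, m ∈ (f i).coeff.support := by
  classical
  induction s using Finset.induction_on with
  | empty =>
    rw [Finset.sum_empty] at hm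
    exact absurd hm (by simp)
  | insert a s ha ih =>
    rw [Finset.sum_insert ha] at hm
    rcases supp_add _ _ m hm with h | h
    · exact ⟨a, Finset.mem_insert_self _ _, h⟩
    · obtain ⟨i, hi, h'⟩ := ih h
      exact ⟨i, Finset.mem_insert_of_mem hi, h'⟩

lemma supp_single (a m : Fin N → ℤ) (c : ℂ)
    (hm : m ∈ (AddMonoidAlgebra.single a c : La N).coeff.support) : m = a := by
  rw [AddMonoidAlgebra.coeff_single] at hm
  exact Finset.mem_singleton.1 (Finsupp.support_single_subset hm)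

variable {Γ : Submodule ℤ (Fin N → ℤ)}

lemma SG.mul {x y : La N} (hx : SG Γ x) (hy : SG Γ y) : SG Γ (x * y) := by
  intro m hm
  obtain ⟨m1, h1, m2, h2, rfl⟩ := supp_mul x y m hm
  exact Γ.add_mem (hx _ h1) (hy _ h2)

lemma SG.add {x y : La N} (hx : SG Γ x) (hy : SG Γ y) : SG Γ (x + y) := by
  intro m hm
  rcases supp_add x y m hm with h | h
  · exact hx _ h
  · exact hy _ h

lemma SG.single {a : Fin N → ℤ} (ha : a ∈ Γ) (c : ℂ) :
    SG Γ (AddMonoidAlgebra.single a c : La N) := by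
  intro m hm
  rw [supp_single a m c hm]
  exact ha

lemma SG.one : SG Γ (1 : La N) := by
  have : (1 : La N) = AddMonoidAlgebra.single 0 1 := rfl
  rw [this]
  exact SG.single Γ.zero_mem 1

end supp

section field

variable {N : ℕ} {K : Type} [Field K] [Algebra ℂ K]

lemma frac (x : Fin N → Kˣ) (Γ : Submodule ℤ (Fin N → ℤ)) (z : K) (hz : z ∈ F0 x Γ) :
    ∃ n d : La N, SG Γ n ∧ SG Γ d ∧ ep x d ≠ 0 ∧ ep x n = ep x d * z := by
  unfold F0 at hz
  refine IntermediateField.adjoin_induction ℂ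
    (p := fun z _ => ∃ n d : La N, SG Γ n ∧ SG Γ d ∧ ep x d ≠ 0 ∧ ep x n = ep x d * z)
    ?_ ?_ ?_ ?_ ?_ hz
  · rintro z ⟨γ, hγ, rfl⟩
    refine ⟨AddMonoidAlgebra.single γ 1, 1, SG.single hγ 1, SG.one, ?_, ?_⟩
    · rw [map_one]; exact one_ne_zero
    · rw [ep_single, one_smul, map_one, one_mul]
  · intro c
    refine ⟨AddMonoidAlgebra.single 0 c, 1, SG.single Γ.zero_mem c, SG.one, ?_, ?_⟩
    · rw [map_one]; exact one_ne_zero
    · rw [ep_single, xm_zero, map_one, one_mul, Units.val_one, Algebra.smul_def, mul_one]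
  · rintro a b _ _ ⟨n1, d1, hn1, hd1, h1, e1⟩ ⟨n2, d2, hn2, hd2, h2, e2⟩
    refine ⟨n1 * d2 + n2 * d1, d1 * d2, (hn1.mul hd2).add (hn2.mul hd1), hd1.mul hd2, ?_, ?_⟩
    · rw [map_mul]; exact mul_ne_zero h1 h2
    · rw [map_add, map_mul, map_mul, map_mul, e1, e2]; ring
  · rintro a _ ⟨n1, d1, hn1, hd1, h1, e1⟩
    by_cases ha : a = 0
    · refine ⟨0, 1, ?_, SG.one, ?_, ?_⟩
      · intro m hm
        exact absurd hm (by simp)
      · rw [map_one]; exact one_ne_zero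
      · rw [ha, map_zero, inv_zero, mul_zero]
    · refine ⟨d1, n1, hd1, hn1, ?_, ?_⟩
      · rw [e1]; exact mul_ne_zero h1 ha
      · rw [e1, mul_assoc, mul_inv_cancel₀ ha, mul_one]
  · rintro a b _ _ ⟨n1, d1, hn1, hd1, h1, e1⟩ ⟨n2, d2, hn2, hd2, h2, e2⟩
    refine ⟨n1 * n2, d1 * d2, hn1.mul hn2, hd1.mul hd2, ?_, ?_⟩
    · rw [map_mul]; exact mul_ne_zero h1 h2
    · rw [map_mul, map_mul, e1, e2]; ring

/-- common denominators -/
lemma common (x : Fin N → Kˣ) (Γ : Submodule ℤ (Fin N → ℤ)) (T : Finset (F0 x Γ)) :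
    ∃ g0 : La N, SG Γ g0 ∧ ep x g0 ≠ 0 ∧ ∀ z ∈ T, ∃ n : La N, SG Γ n ∧ ep x n = ep x g0 * z := by
  classical
  induction T using Finset.induction_on with
  | empty =>
    refine ⟨1, SG.one, ?_, fun z hz => absurd hz (Finset.notMem_empty z)⟩
    rw [map_one]; exact one_ne_zero
  | insert a T ha ih =>
    obtain ⟨g, hg, hg0, h⟩ := ih
    obtain ⟨n, d, hn, hd, hd0, e⟩ := frac x Γ (a : K) a.2
    refine ⟨g * d, hg.mul hd, ?_, ?_⟩
    · rw [map_mul]; exact mul_ne_zero hg0 hd0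
    · intro z hz
      rcases Finset.mem_insert.1 hz with rfl | hz
      · refine ⟨g * n, hg.mul hn, ?_⟩
        rw [map_mul, map_mul, e]; ring
      · obtain ⟨n', hn', e'⟩ := h z hz
        refine ⟨n' * d, hn'.mul hd, ?_⟩
        rw [map_mul, map_mul, e']; ring

lemma xm_nsmul (x : Fin N → Kˣ) (m : Fin N → ℤ) (n : ℕ) : xm x (n • m) = xm x m ^ n := by
  unfold xm
  rw [← Finset.prod_pow]
  refine Finset.prod_congr rfl fun i _ => ?_
  rw [Pi.smul_apply, nsmul_eq_mul, mul_comm, zpow_mul, zpow_natCast]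

lemma xm_sum (x : Fin N → Kˣ) {ι : Type} (s : Finset ι) (f : ι → Fin N → ℤ) :
    xm x (∑ j ∈ s, f j) = ∏ j ∈ s, xm x (f j) := by
  classical
  induction s using Finset.induction_on with
  | empty => rw [Finset.sum_empty, Finset.prod_empty, xm_zero]
  | insert a s ha ih => rw [Finset.sum_insert ha, Finset.prod_insert ha, xm_add, ih]

lemma xm_mon (x : Fin N → Kˣ) {b : ℕ} (bt : Fin b → Fin N → ℤ) (c : Fin b →₀ ℕ) :
    (xm x (∑ j, c j • bt j) : K) = ∏ j, (xm x (bt j) : K) ^ c j := by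
  rw [xm_sum, Units.coe_prod]
  refine Finset.prod_congr rfl fun j _ => ?_
  rw [xm_nsmul, Units.val_pow_eq_pow_val]

end field

theorem t_lift : St_lift := by
  classical
  intro N K _ _ x Γ b bt co hs S
  obtain ⟨g0, hg, hg0, h⟩ := common x Γ (S.biUnion fun a => a.support.image fun c => MvPolynomial.coeff c a)
  refine ⟨g0, hg, hg0, fun a ha => ?_⟩
  have h' : ∀ c ∈ a.support, ∃ n : La N, SG Γ n ∧ ep x n = ep x g0 * ((MvPolynomial.coeff c a : F0 x Γ) : K) := by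
    intro c hc
    exact h (MvPolynomial.coeff c a) (Finset.mem_biUnion.2 ⟨a, ha, Finset.mem_image_of_mem _ hc⟩)
  choose! n hn1 hn2 using h'
  refine ⟨∑ c ∈ a.support, n c * AddMonoidAlgebra.single (∑ j, c j • bt j) 1, ?_, ?_⟩
  · rw [map_sum, aeval_def, eval₂_eq', Finset.mul_sum]
    refine Finset.sum_congr rfl fun c hc => ?_
    rw [map_mul, ep_single, one_smul, hn2 c hc, xm_mon]
    rw [mul_assoc]
    rfl
  · intro m hm
    obtain ⟨c, hc, hm'⟩ := supp_sum _ _ m hm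
    refine ⟨c, hc, ?_⟩
    obtain ⟨m1, h1, m2, h2, rfl⟩ := supp_mul _ _ m hm'
    rw [supp_single _ _ _ h2, map_add, (hs.ker m1).2 (hn1 c hc m1 h1), zero_add, map_sum]
    funext i
    rw [Finset.sum_apply, Finset.sum_eq_single i]
    · rw [map_nsmul, hs.bt i, Pi.smul_apply, Pi.single_eq_same, nsmul_eq_mul, mul_one]
    · intro j _ hj
      rw [map_nsmul, hs.bt j, Pi.smul_apply, Pi.single_eq_of_ne hj.symm, smul_zero]
    · intro h
      exact absurd (Finset.mem_univ i) h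

section gr

variable {N : ℕ} {K : Type} [Field K] [Algebra ℂ K]

/-- Laurent polynomials as polynomials over `F0 x Γ` -/
lemma to_poly (x : Fin N → Kˣ) (Γ : Submodule ℤ (Fin N → ℤ)) {b : ℕ} (bt : Fin b → Fin N → ℤ)
    (co : (Fin N → ℤ) →+ (Fin b → ℤ))
    (h : ∀ m : Fin N → ℤ, ∃ c : F0 x Γ, c ≠ 0 ∧
      (xm x m : K) = (c : K) * ∏ j, (xm x (bt j) : K) ^ co m j) (v : La N) :
    ∃ (M : ℕ) (V : MvPolynomial (Fin b) (F0 x Γ)),
      ep x v * (∏ j, (xm x (bt j) : K)) ^ M = aeval (fun j => (xm x (bt j) : K)) V := by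
  induction v using AddMonoidAlgebra.induction_linear with
  | zero => exact ⟨0, 0, by simp⟩
  | add v w hv hw =>
    obtain ⟨M1, V1, e1⟩ := hv
    obtain ⟨M2, V2, e2⟩ := hw
    refine ⟨M1 + M2, V1 * (∏ j, X j) ^ M2 + V2 * (∏ j, X j) ^ M1, ?_⟩
    rw [map_add, map_add, map_mul, map_mul, map_pow, map_pow, map_prod, ← e1, ← e2]
    simp only [aeval_X]
    ring
  | single m r =>
    obtain ⟨c, _, hc⟩ := h m
    let M : ℕ := ∑ j, (co m j).natAbs
    have hM : ∀ j, 0 ≤ (M : ℤ) + co m j := by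
      intro j
      have h1 : (co m j).natAbs ≤ M :=
        Finset.single_le_sum (f := fun j => (co m j).natAbs) (fun _ _ => Nat.zero_le _)
          (Finset.mem_univ j)
      have h2 : -((co m j).natAbs : ℤ) ≤ co m j := by
        rw [Int.natCast_natAbs]
        exact neg_abs_le _
      omega
    refine ⟨M, C (algebraMap ℂ (F0 x Γ) r * c) * ∏ j, X j ^ (((M : ℤ) + co m j).toNat), ?_⟩
    rw [ep_single, hc, map_mul, aeval_C, map_prod, map_mul]
    have e1 : algebraMap (F0 x Γ) K (algebraMap ℂ (F0 x Γ) r) = algebraMap ℂ K r := rfl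
    have e2 : algebraMap (F0 x Γ) K c = (c : K) := rfl
    rw [e1, e2, Algebra.smul_def]
    have e3 : ∏ j, aeval (fun j => (xm x (bt j) : K)) (X j ^ (((M : ℤ) + co m j).toNat) :
        MvPolynomial (Fin b) (F0 x Γ)) =
        (∏ j, (xm x (bt j) : K) ^ co m j) * (∏ j, (xm x (bt j) : K)) ^ M := by
      rw [← Finset.prod_pow, ← Finset.prod_mul_distrib]
      refine Finset.prod_congr rfl fun j _ => ?_
      rw [map_pow, aeval_X, ← zpow_natCast, ← zpow_natCast, Int.toNat_of_nonneg (hM j),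
        zpow_add₀ (Units.ne_zero _), mul_comm]
    rw [e3]
    ring

end gr

theorem t_gr (h0 : St_split) : St_gr := by
  classical
  intro N K _ _ x Γ b bt co hs hh f g F hg hF hsq hfF u hu
  obtain ⟨hai, hmon⟩ := h0 N K x Γ b bt co hs hh
  set Y : MvPolynomial (Fin b) (F0 x Γ) →ₐ[F0 x Γ] K :=
    aeval (fun j => (xm x (bt j) : K)) with hY
  have hinj : Function.Injective Y := hai
  obtain ⟨n, hn⟩ := hu
  rw [Submodule.mem_sup] at hn
  obtain ⟨i, hi, w, hw, hiw⟩ := hn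
  obtain ⟨a, rfl⟩ := Ideal.mem_span_singleton'.1 hw
  have hi' : ep x i = 0 := hi
  have e0 : ep x u ^ n = ep x a * ((g : K) * Y F) := by
    rw [← map_pow, ← hiw, map_add, hi', zero_add, map_mul, hfF]
  obtain ⟨M, U, hU⟩ := to_poly x Γ bt co hmon u
  obtain ⟨M', A', hA'⟩ := to_poly x Γ bt co hmon a
  set Px : MvPolynomial (Fin b) (F0 x Γ) := ∏ j, X j with hPx
  set π : K := ∏ j, (xm x (bt j) : K) with hπ
  have hU' : ep x u * π ^ M = Y U := hU
  have hA2 : ep x a * π ^ M' = Y A' := hA'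
  have hYP : Y Px = π := by
    rw [hPx, map_prod, hπ]
    exact Finset.prod_congr rfl fun j _ => aeval_X _ _
  have hYC : ∀ c : F0 x Γ, Y (C c) = (c : K) := fun c => aeval_C _ _
  have hπ0 : π ≠ 0 := Finset.prod_ne_zero_iff.2 fun j _ => Units.ne_zero _
  have e1 : U ^ n * Px ^ M' = A' * C g * F * Px ^ (M * n) := by
    apply hinj
    rw [map_mul, map_pow, map_pow, hYP, map_mul, map_mul, map_mul, map_pow, hYP, hYC]
    rw [← hU', ← hA2, mul_pow, e0, ← pow_mul]
    ring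
  have e2 : F ∣ (U * Px) ^ (n + M' + 1) := by
    have h1 : F ∣ U ^ n * Px ^ M' := by
      rw [e1]
      exact ⟨A' * C g * Px ^ (M * n), by ring⟩
    refine h1.trans ⟨U ^ (M' + 1) * Px ^ (n + 1), ?_⟩
    ring
  have e3 : F ∣ U * Px := (hsq.dvd_pow_iff_dvd (by omega)).1 e2
  obtain ⟨H, hH⟩ := e3
  obtain ⟨g0, hg1, hg2, hg3⟩ := t_lift N K x Γ b bt co hs {C g⁻¹ * H}
  obtain ⟨A, hA, _⟩ := hg3 _ (Finset.mem_singleton_self _)
  have hg0 : (g : K) ≠ 0 := by
    intro h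
    exact hg (Subtype.ext h)
  have e4 : ep x u * π ^ (M + 1) = ep x f * Y (C g⁻¹ * H) := by
    have h1 : ep x u * π ^ (M + 1) = Y (U * Px) := by
      rw [map_mul, hYP, ← hU', pow_succ, mul_assoc]
    rw [h1, hH, hfF, map_mul, map_mul, hYC]
    have h2 : ((g⁻¹ : F0 x Γ) : K) = (g : K)⁻¹ := rfl
    rw [h2]
    field_simp
  let mm : Fin N → ℤ := (M + 1) • ∑ j, bt j
  have e5 : (xm x mm : K) = π ^ (M + 1) := by
    show (xm x ((M + 1) • ∑ j, bt j) : K) = _
    rw [xm_nsmul, xm_sum, Units.val_pow_eq_pow_val, Units.coe_prod]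
  refine ⟨g0, fun h => hg2 h, hg1, ?_⟩
  have e6 : g0 * u - f * A * AddMonoidAlgebra.single (-mm) 1 ∈ RingHom.ker (ep x) := by
    rw [RingHom.mem_ker, map_sub, map_mul, map_mul, map_mul, ep_single, one_smul, hA]
    have h1 : (xm x (-mm) : K) * π ^ (M + 1) = 1 := by
      rw [← e5, ← Units.val_mul, ← xm_add, neg_add_cancel, xm_zero, Units.val_one]
    have h2 : (ep x g0 * ep x u - ep x f * (ep x g0 * Y (C g⁻¹ * H)) * (xm x (-mm) : K)) *
        π ^ (M + 1) = 0 := by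
      calc _ = ep x g0 * (ep x u * π ^ (M + 1)) - ep x g0 * (ep x f * Y (C g⁻¹ * H)) *
            ((xm x (-mm) : K) * π ^ (M + 1)) := by ring
        _ = 0 := by rw [h1, e4, mul_one, sub_self]
    exact (mul_eq_zero.1 h2).resolve_right (pow_ne_zero _ hπ0)
  have e7 : g0 * u = (g0 * u - f * A * AddMonoidAlgebra.single (-mm) 1) +
      A * AddMonoidAlgebra.single (-mm) 1 * f := by ring
  rw [e7]
  exact Ideal.add_mem _ (Ideal.mem_sup_left e6)
    (Ideal.mem_sup_right (Ideal.mul_mem_left _ _ (Ideal.mem_span_singleton_self f)))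

end Pool.Agent.Y290.OG
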